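import Pool.Agent.K1H76.RG.Stm
import Pool.Agent.R361.QF.HalfNe
import Pool.Agent.R361.QF.BernHalf

/-!
# Piece A8 (`S_ALG`): the norm of the half sums of order `d`
-/

set_option autoImplicit false

namespace Pool.Agent.K1H45.RG

open Finset NumberField Pool.Agent.K1H76.RG

section general

variable {R : Type*} [CommRing R] {p : ℕ} [hp : Fact p.Prime]

/-- The character sending a generator `g` to a root of unity `ζ`. -/
lemma exists_char {g : (ZMod p)ˣ} (hg : ∀ x, x ∈ Subgroup.zpowers g) {ζ : R} {d : ℕ} (hd0 : d ≠ 0)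
    (hζ : ζ ^ d = 1) (hd : d ∣ p - 1) : ∃ χ : MulChar (ZMod p) R, χ (g : ZMod p) = ζ := by
  have hu : IsUnit ζ := IsUnit.of_pow_eq_one hζ hd0
  obtain ⟨u, rfl⟩ := hu
  have h1 : u ∈ rootsOfUnity (Fintype.card (ZMod p)ˣ) R := by
    rw [mem_rootsOfUnity, ZMod.card_units]
    obtain ⟨c, hc⟩ := hd
    rw [hc, pow_mul]
    have : u ^ d = 1 := Units.ext (by simpa using hζ)
    rw [this, one_pow]
  exact ⟨MulChar.ofRootOfUnity h1 hg, MulChar.ofRootOfUnity_spec h1 hg⟩

lemma char_pow_iff {g : (ZMod p)ˣ} (hg : ∀ x, x ∈ Subgroup.zpowers g) (χ : MulChar (ZMod p) R)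
    (n : ℕ) : χ ^ n = 1 ↔ χ (g : ZMod p) ^ n = 1 := by
  rw [MulChar.eq_iff hg, MulChar.one_apply_coe, MulChar.pow_apply_coe]

lemma char_order {g : (ZMod p)ˣ} (hg : ∀ x, x ∈ Subgroup.zpowers g) (χ : MulChar (ZMod p) R) :
    orderOf χ = orderOf (χ (g : ZMod p)) :=
  orderOf_eq_orderOf_iff.mpr (fun n => char_pow_iff hg χ n)

end general

section

variable {p : ℕ} [hp : Fact p.Prime]

lemma gen_order {g : (ZMod p)ˣ} (hg : ∀ x, x ∈ Subgroup.zpowers g) : orderOf g = p - 1 := by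
  rw [orderOf_eq_card_of_forall_mem_zpowers hg, Nat.card_eq_fintype_card, ZMod.card_units]

/-- characters of exact order `d` with `(p-1)/d` odd are odd -/
lemma char_odd (hp2 : p ≠ 2) {d : ℕ} (hd : d ∣ p - 1) (hodd : Odd ((p - 1) / d))
    (χ : DirichletCharacter ℂ p) (hχ : orderOf χ = d) : χ.Odd := by
  obtain ⟨g, hg⟩ := IsCyclic.exists_generator (α := (ZMod p)ˣ)
  have hp3 : 3 ≤ p := by
    have := hp.out.two_le
    omega
  have hpo : p % 2 = 1 := by
    rcases hp.out.eq_two_or_odd with h | h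
    · exact absurd h hp2
    · exact h
  rcases χ.even_or_odd with he | ho
  · exfalso
    have hd0 : 0 < d := Nat.pos_of_dvd_of_pos hd (by omega)
    obtain ⟨c, hc⟩ := hd
    have hcc : (p - 1) / d = c := by rw [hc, Nat.mul_div_cancel_left c hd0]
    rw [hcc] at hodd
    -- g ^ ((p-1)/2) = -1
    have h1 : ((g : ZMod p)) ^ ((p - 1) / 2) = -1 := by
      have h2 : ((g : ZMod p) ^ ((p - 1) / 2)) ^ 2 = 1 := by
        rw [← pow_mul, Nat.div_mul_cancel (by omega)]
        exact ZMod.pow_card_sub_one_eq_one g.ne_zero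
      rcases sq_eq_one_iff.mp h2 with h3 | h3
      · exfalso
        have h4 : g ^ ((p - 1) / 2) = 1 := Units.ext (by simpa using h3)
        have h5 := orderOf_dvd_of_pow_eq_one h4
        rw [gen_order hg] at h5
        have := Nat.le_of_dvd (by omega) h5
        omega
      · exact h3
    have h6 : χ (g : ZMod p) ^ ((p - 1) / 2) = 1 := by
      rw [← map_pow, h1]; exact he
    have h7 : d ∣ (p - 1) / 2 := by
      rw [← hχ, char_order hg]
      exact orderOf_dvd_of_pow_eq_one h6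
    obtain ⟨t, ht⟩ := h7
    have h8 : p - 1 = d * (2 * t) := by
      have : p - 1 = 2 * ((p - 1) / 2) := by omega
      rw [this, ht]; ring
    rw [hc] at h8
    have h9 : c = 2 * t := Nat.eq_of_mul_eq_mul_left hd0 h8
    rw [h9] at hodd
    exact (Nat.not_odd_iff_even.mpr (even_two_mul t)) hodd
  · exact ho

end

section field

variable {p : ℕ} [hp : Fact p.Prime] {d : ℕ} [NeZero d]

/-- the product of the half sums is a norm -/
lemma prod_emb (K : Type) [Field K] [NumberField K] [IsCyclotomicExtension {d} ℚ K]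
    {g : (ZMod p)ˣ} (hg : ∀ x, x ∈ Subgroup.zpowers g) {ζ : K} (hζ : IsPrimitiveRoot ζ d)
    (χ₀ : MulChar (ZMod p) (𝓞 K)) (hχ₀ : χ₀ (g : ZMod p) = hζ.toInteger) :
    ∏ χ ∈ Xd d p, ‖hs χ‖ =
      (((Algebra.norm ℤ (∑ a ∈ Icc 1 ((p - 1) / 2), χ₀ (a : ZMod p))).natAbs : ℕ) : ℝ) := by
  set h : 𝓞 K := ∑ a ∈ Icc 1 ((p - 1) / 2), χ₀ (a : ZMod p) with hh
  have h1 : (((Algebra.norm ℤ h : ℤ) : ℚ) : ℂ) = ∏ σ : K →ₐ[ℚ] ℂ, σ (h : K) := by
    rw [Algebra.coe_norm_int]
    exact Algebra.norm_eq_prod_embeddings ℚ ℂ (h : K)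
  have h2 : (((Algebra.norm ℤ h).natAbs : ℕ) : ℝ) = ∏ σ : K →ₐ[ℚ] ℂ, ‖σ (h : K)‖ := by
    rw [← norm_prod, ← h1, Nat.cast_natAbs]
    rw [Complex.norm_ratCast]
    push_cast
    rfl
  rw [h2]
  symm
  have hdpos : 0 < d := NeZero.pos d
  -- value at `g` of the character attached to `σ`
  have hval : ∀ σ : K →ₐ[ℚ] ℂ,
      (χ₀.ringHomComp ((σ : K →+* ℂ).comp (algebraMap (𝓞 K) K))) (g : ZMod p) = σ ζ := by
    intro σ
    rw [MulChar.ringHomComp_apply, hχ₀]
    rfl
  refine Finset.prod_bij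
    (fun (σ : K →ₐ[ℚ] ℂ) _ => χ₀.ringHomComp ((σ : K →+* ℂ).comp (algebraMap (𝓞 K) K))) ?_ ?_ ?_ ?_
  · intro σ _
    rw [mem_Xd, char_order hg, hval]
    exact ((hζ.map_of_injective (f := σ) σ.injective).eq_orderOf).symm
  · intro σ _ τ _ hστ
    have h3 : σ ζ = τ ζ := by
      rw [← hval σ, ← hval τ]
      exact congrArg (fun c : MulChar (ZMod p) ℂ => c (g : ZMod p)) hστ
    have hirr := Polynomial.cyclotomic.irreducible_rat hdpos
    apply (hζ.embeddingsEquivPrimitiveRoots ℂ hirr).injective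
    apply Subtype.ext
    rw [hζ.embeddingsEquivPrimitiveRoots_apply_coe, hζ.embeddingsEquivPrimitiveRoots_apply_coe]
    exact h3
  · intro χ hχ
    rw [mem_Xd, char_order hg] at hχ
    have hpr : IsPrimitiveRoot (χ (g : ZMod p)) d := by
      rw [← hχ]; exact IsPrimitiveRoot.orderOf _
    have hirr := Polynomial.cyclotomic.irreducible_rat hdpos
    obtain ⟨σ, hσ⟩ := (hζ.embeddingsEquivPrimitiveRoots ℂ hirr).surjective
      ⟨χ (g : ZMod p), (mem_primitiveRoots hdpos).mpr hpr⟩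
    refine ⟨σ, mem_univ _, ?_⟩
    rw [MulChar.eq_iff hg, hval]
    have := congrArg Subtype.val hσ
    rw [hζ.embeddingsEquivPrimitiveRoots_apply_coe] at this
    exact this
  · intro σ _
    congr 1
    rw [hh, hs]
    have h4 : ((∑ a ∈ Icc 1 ((p - 1) / 2), χ₀ (a : ZMod p) : 𝓞 K) : K) =
        ∑ a ∈ Icc 1 ((p - 1) / 2), ((χ₀ (a : ZMod p) : 𝓞 K) : K) := by
      exact map_sum (algebraMap (𝓞 K) K) _ _
    rw [h4, map_sum]
    rfl

/-- ring homs to `ZMod p` -/
lemma exists_hom (K : Type) [Field K] [NumberField K] [IsCyclotomicExtension {d} ℚ K]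
    {ζ : K} (hζ : IsPrimitiveRoot ζ d) {y : ZMod p} (hy : IsPrimitiveRoot y d) :
    ∃ φ : 𝓞 K →+* ZMod p, φ hζ.toInteger = y := by
  have hdpos : 0 < d := NeZero.pos d
  have h1 : Polynomial.aeval y (minpoly ℤ hζ.integralPowerBasis.gen) = 0 := by
    rw [hζ.integralPowerBasis_gen, ← RingOfIntegers.minpoly_coe]
    have h0 : ((hζ.toInteger : 𝓞 K) : K) = ζ := rfl
    rw [h0, ← Polynomial.cyclotomic_eq_minpoly hζ hdpos, Polynomial.aeval_def,
      Polynomial.eval₂_eq_eval_map, Polynomial.map_cyclotomic]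
    exact hy.isRoot_cyclotomic hdpos
  refine ⟨(hζ.integralPowerBasis.lift y h1 : 𝓞 K →ₐ[ℤ] ZMod p), ?_⟩
  have := hζ.integralPowerBasis.lift_gen y h1
  rw [hζ.integralPowerBasis_gen] at this
  exact this

/-- distinct kernels give a divisibility -/
lemma pow_dvd_norm (K : Type) [Field K] [NumberField K] (S : Finset ℕ) (φ : ℕ → (𝓞 K →+* ZMod p))
    (z : 𝓞 K) (hz : ∀ m ∈ S, ∀ m' ∈ S, φ m z = φ m' z → m = m') (h : 𝓞 K)
    (hh : ∀ m ∈ S, φ m h = 0) : p ^ #S ∣ (Algebra.norm ℤ h).natAbs := by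
  have hsurj : ∀ m, Function.Surjective (φ m) := fun m => ZMod.ringHom_surjective _
  have hmax : ∀ m, (RingHom.ker (φ m)).IsMaximal := fun m =>
    RingHom.ker_isMaximal_of_surjective (φ m) (hsurj m)
  have hne : ∀ m ∈ S, ∀ m' ∈ S, m ≠ m' → RingHom.ker (φ m) ≠ RingHom.ker (φ m') := by
    intro m hm m' hm' hmm hker
    apply hmm
    apply hz m hm m' hm'
    have h1 : z - ((φ m z).val : 𝓞 K) ∈ RingHom.ker (φ m) := by
      rw [RingHom.mem_ker, map_sub, map_natCast, ZMod.natCast_val, ZMod.cast_id, sub_self]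
    rw [hker, RingHom.mem_ker, map_sub, map_natCast, ZMod.natCast_val, ZMod.cast_id,
      sub_eq_zero] at h1
    exact h1.symm
  have hdvd : ∏ m ∈ S, RingHom.ker (φ m) ∣ Ideal.span {h} := by
    apply Finset.prod_dvd_of_coprime
    · intro m hm m' hm' hmm
      have := hmax m
      have := hmax m'
      exact Ideal.isCoprime_of_isMaximal (hne m hm m' hm' hmm)
    · intro m hm
      rw [Ideal.dvd_span_singleton, RingHom.mem_ker]
      exact hh m hm
  have hnorm : ∀ m, Ideal.absNorm (RingHom.ker (φ m)) = p := by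
    intro m
    rw [Ideal.absNorm_apply, Submodule.cardQuot_apply]
    rw [Nat.card_congr (RingHom.quotientKerEquivOfSurjective (hsurj m)).toEquiv, Nat.card_zmod]
  have h2 := map_dvd Ideal.absNorm hdvd
  rw [map_prod, Finset.prod_congr rfl (fun m _ => hnorm m), prod_const,
    Ideal.absNorm_span_singleton] at h2
  exact h2

end field

theorem main (d p : ℕ) (hp : p.Prime) (hp2 : p ≠ 2) (hd : d ∣ p - 1) (hodd : Odd ((p - 1) / d))
    [NeZero d] (K : Type) [Field K] [NumberField K] [IsCyclotomicExtension {d} ℚ K] {ζ : K}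
    (hζ : IsPrimitiveRoot ζ d) :
    ∃ M : ℕ, 1 ≤ M ∧ ∏ χ ∈ Xd d p, ‖hs χ‖ = (M : ℝ) * (p : ℝ) ^ #(irr d p) := by
  have hF : Fact p.Prime := ⟨hp⟩
  have hp3 : 3 ≤ p := by
    have := hp.two_le
    omega
  have hpo : p % 2 = 1 := by
    rcases hp.eq_two_or_odd with h | h
    · exact absurd h hp2
    · exact h
  have hd0 : 0 < d := Nat.pos_of_dvd_of_pos hd (by omega)
  obtain ⟨g, hg⟩ := IsCyclic.exists_generator (α := (ZMod p)ˣ)
  obtain ⟨χ₀, hχ₀⟩ := exists_char (R := 𝓞 K) hg hd0.ne'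
    (hζ.toInteger_isPrimitiveRoot.pow_eq_one) hd
  set h : 𝓞 K := ∑ a ∈ Icc 1 ((p - 1) / 2), χ₀ (a : ZMod p) with hh
  have hprod := prod_emb K hg hζ χ₀ hχ₀
  rw [← hh] at hprod
  -- the homs
  have hgo := gen_order hg
  have hord : ∀ m ∈ irr d p, IsPrimitiveRoot (((g : ZMod p)) ^ (2 * m - 1)) d := by
    intro m hm
    rw [irr, mem_filter] at hm
    obtain ⟨hm0, hm1, hm2, hm3, hm4⟩ := hm
    have h1 : orderOf (g ^ (2 * m - 1)) = d := by
      rw [orderOf_pow, hgo, Nat.gcd_comm, hm3]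
      exact Nat.div_div_self hd (by omega)
    have h2 : IsPrimitiveRoot (g ^ (2 * m - 1)) d := by
      have h3 := IsPrimitiveRoot.orderOf (g ^ (2 * m - 1))
      rwa [h1] at h3
    have := (IsPrimitiveRoot.coe_units_iff).mpr h2
    simpa using this
  have hphi : ∀ m : ℕ, ∃ φ : 𝓞 K →+* ZMod p, m ∈ irr d p →
      φ hζ.toInteger = ((g : ZMod p)) ^ (2 * m - 1) := by
    intro m
    by_cases hm : m ∈ irr d p
    · obtain ⟨φ, hφ⟩ := exists_hom K hζ (hord m hm)
      exact ⟨φ, fun _ => hφ⟩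
    · have h1 : orderOf (g ^ ((p - 1) / d)) = d := by
        rw [orderOf_pow, hgo, Nat.gcd_eq_right (Nat.div_dvd_of_dvd hd)]
        exact Nat.div_div_self hd (by omega)
      have h2 : IsPrimitiveRoot (g ^ ((p - 1) / d)) d := by
        have h3 := IsPrimitiveRoot.orderOf (g ^ ((p - 1) / d))
        rwa [h1] at h3
      obtain ⟨φ, hφ⟩ := exists_hom K hζ ((IsPrimitiveRoot.coe_units_iff).mpr h2)
      exact ⟨φ, fun h => absurd h hm⟩
  choose φ hφ using hphi
  have hdvd : p ^ #(irr d p) ∣ (Algebra.norm ℤ h).natAbs := by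
    apply pow_dvd_norm K (irr d p) φ hζ.toInteger
    · intro m hm m' hm' he
      rw [hφ m hm, hφ m' hm'] at he
      rw [irr, mem_filter] at hm hm'
      have h1 : g ^ (2 * m - 1) = g ^ (2 * m' - 1) := Units.ext (by simpa using he)
      have h2 := pow_injOn_Iio_orderOf (x := g) (by
        rw [hgo, Set.mem_Iio]; omega) (by rw [hgo, Set.mem_Iio]; omega) h1
      omega
    · intro m hm
      rw [hh, map_sum]
      have hm' := hm
      rw [irr, mem_filter] at hm'
      obtain ⟨hm0, hm1, hm2, hm3, hm4⟩ := hm'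
      have h5 : ∀ a : ZMod p, φ m (χ₀ a) = a ^ (2 * m - 1) := by
        intro a
        by_cases ha : a = 0
        · rw [ha, MulChar.map_zero, map_zero, zero_pow (by omega)]
        · obtain ⟨u, rfl⟩ := isUnit_iff_ne_zero.mpr ha
          obtain ⟨j, hj⟩ := (Submonoid.mem_powers_iff _ _).mp
            ((mem_powers_iff_mem_zpowers).mpr (hg u))
          rw [← hj, Units.val_pow_eq_pow_val, map_pow, map_pow, hχ₀, hφ m hm, ← pow_mul, ← pow_mul,
            mul_comm]
      rw [sum_congr rfl (fun (a : ℕ) _ => h5 (a : ZMod p))]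
      exact Pool.Agent.R361.QF.half_pow_sum p hp3 (2 * m - 1) (by omega) (by omega)
        (by rw [show 2 * m - 1 + 1 = 2 * m by omega]; exact hm4)
  obtain ⟨M, hM⟩ := hdvd
  refine ⟨M, ?_, ?_⟩
  · rcases Nat.eq_zero_or_pos M with h0 | h0
    · exfalso
      rw [hM, h0, mul_zero, Nat.cast_zero, prod_eq_zero_iff] at hprod
      obtain ⟨χ, hχ, h1⟩ := hprod
      rw [mem_Xd] at hχ
      exact Pool.Agent.R361.QF.half_ne hpo χ (char_odd hp2 hd hodd χ hχ) (norm_eq_zero.mp h1)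
    · exact h0
  · rw [hprod, hM]
    push_cast
    ring

/-- **A8** -/
theorem t_ALG : S_ALG := by
  intro d p hp hp2 hd hodd
  have hd0 : 0 < d := Nat.pos_of_dvd_of_pos hd (by have := hp.two_le; omega)
  have : NeZero d := ⟨hd0.ne'⟩
  have hcyc : IsCyclotomicExtension {d} ℚ (CyclotomicField d ℚ) :=
    CyclotomicField.isCyclotomicExtension d ℚ
  have hNF : NumberField (CyclotomicField d ℚ) :=
    IsCyclotomicExtension.numberField {d} ℚ (CyclotomicField d ℚ)
  exact main d p hp hp2 hd hodd (CyclotomicField d ℚ)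
    (IsCyclotomicExtension.zeta_spec d ℚ (CyclotomicField d ℚ))

end Pool.Agent.K1H45.RG
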